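import Mathlib

/-!
# The Kuratowski topologization over the box metric is not Hausdorff
-/

open Set Filter Topology MeasureTheory NNReal ENNReal

namespace Pool.Agent.Results.MP_3b4475_gt.NotHausdorff

/-- An mm-space: a complete separable metric space with a Borel probability measure. -/
structure MMSpace where
  carrier : Type
  [metric : MetricSpace carrier]
  [complete : CompleteSpace carrier]
  [separable : TopologicalSpace.SeparableSpace carrier]
  [meas : MeasurableSpace carrier]
  [borel : BorelSpace carrier]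
  μ : Measure carrier
  [prob : IsProbabilityMeasure μ]

attribute [instance] MMSpace.metric MMSpace.complete MMSpace.separable MMSpace.meas
  MMSpace.borel MMSpace.prob

/-- Two mm-spaces are identified when an isometry between the supports pushes one measure
to the other. -/
def Iso (X Y : MMSpace) : Prop :=
  ∃ f : X.μ.support → Y.μ.support, Isometry f ∧
    Measure.map f (X.μ.comap Subtype.val) = Y.μ.comap Subtype.val

/-- The set of classes of mm-spaces. -/
def MM : Type 1 := Quot Iso

/-- Lebesgue measure on `[0,1)`. -/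
noncomputable def leb : Measure (Ico (0 : ℝ) 1) := volume.comap Subtype.val

/-- `ε` is admissible in the definition of the box distance between `z` and `z'`. -/
def BoxGood (ε : ℝ≥0) (z z' : MM) : Prop :=
  ∃ X Y : MMSpace, Quot.mk Iso X = z ∧ Quot.mk Iso Y = z' ∧
    ∃ (φ : Ico (0 : ℝ) 1 → X.carrier) (ψ : Ico (0 : ℝ) 1 → Y.carrier),
      Measurable φ ∧ Measurable ψ ∧ Measure.map φ leb = X.μ ∧ Measure.map ψ leb = Y.μ ∧
      ∃ I₀ : Set (Ico (0 : ℝ) 1), MeasurableSet I₀ ∧ 1 - (ε : ℝ≥0∞) ≤ leb I₀ ∧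
        ∀ s ∈ I₀, ∀ t ∈ I₀, |dist (φ s) (φ t) - dist (ψ s) (ψ t)| ≤ ε

/-- The box distance. -/
noncomputable def box (z z' : MM) : ℝ≥0∞ := ⨅ (ε : ℝ≥0) (_ : BoxGood ε z z'), (ε : ℝ≥0∞)

/-- The closed subsets of `(MM, box)`. -/
def IsBoxClosed (C : Set MM) : Prop := ∀ z, (∀ ε > 0, ∃ y ∈ C, box z y < ε) → z ∈ C

/-- The set of all closed subsets. -/
def F : Type 1 := {C : Set MM // IsBoxClosed C}

section nets
variable {ι : Type 1} [Preorder ι]

/-- The lower limit of a net of closed sets. -/
def Li (A : ι → F) : Set MM := {z | ∀ ε > 0, ∃ i, ∀ j, i ≤ j → ∃ y ∈ (A j).1, box z y < ε}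

/-- The upper limit of a net of closed sets. -/
def Ls (A : ι → F) : Set MM := {z | ∀ ε > 0, ∀ i, ∃ j, i ≤ j ∧ ∃ y ∈ (A j).1, box z y < ε}

/-- Kuratowski–Painlevé convergence. -/
def KPConverges (A : ι → F) (B : F) : Prop := Ls A ⊆ B.1 ∧ B.1 ⊆ Li A

end nets

/-- Every Kuratowski–Painlevé convergent net converges to its Kuratowski–Painlevé limit. -/
def KPAdmissible (t : TopologicalSpace F) : Prop :=
  ∀ (ι : Type 1) [Preorder ι] [IsDirectedOrder ι] [Nonempty ι] (A : ι → F) (B : F),
    KPConverges A B → Tendsto A atTop (@nhds F t B)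

/-- The finest topology in which every Kuratowski–Painlevé convergent net converges to its
Kuratowski–Painlevé limit. -/
@[reducible] noncomputable def tauK : TopologicalSpace F := sInf {t | KPAdmissible t}

theorem tauK_admissible : KPAdmissible tauK := by
  intro ι _ _ _ A B h
  rw [tauK, nhds_sInf]
  refine tendsto_iInf.2 fun t => tendsto_iInf.2 fun ht => ?_
  exact ht ι A B h

/-! ### The functionals -/

section functional

variable {Ω : Type} [MeasurableSpace Ω] (P : Measure Ω) [IsProbabilityMeasure P]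

/-- The truncated distance. -/
noncomputable def kk {X : Type} [MetricSpace X] (x y : X) : ℝ := min 1 (dist x y)

theorem kk_nonneg {X : Type} [MetricSpace X] (x y : X) : 0 ≤ kk x y :=
  le_min zero_le_one dist_nonneg

theorem kk_le {X : Type} [MetricSpace X] (x y : X) : kk x y ≤ 1 := min_le_left _ _

noncomputable def hh (X : MMSpace) (x : X.carrier) : ℝ := ∫ y, kk x y ∂X.μ

noncomputable def J (M : ℕ) (X : MMSpace) : ℝ := ∫ x, (hh X x) ^ M ∂X.μ

theorem measurable_kk (X : MMSpace) : Measurable fun p : X.carrier × X.carrier => kk p.1 p.2 := by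
  have : SecondCountableTopology X.carrier := UniformSpace.secondCountable_of_separable _
  exact measurable_const.min measurable_dist

theorem integrable_kk (X : MMSpace) (φ : Ω → X.carrier) (hφ : Measurable φ) (x : X.carrier) :
    Integrable (fun t => kk x (φ t)) P := by
  refine Integrable.of_bound (C := 1) ?_ (Eventually.of_forall fun t => ?_)
  · exact ((measurable_kk X).comp (measurable_const.prodMk hφ)).aestronglyMeasurable
  · rw [Real.norm_of_nonneg (kk_nonneg _ _)]
    exact kk_le _ _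

theorem hh_nonneg (X : MMSpace) (x : X.carrier) : 0 ≤ hh X x := integral_nonneg fun _ => kk_nonneg _ _

theorem hh_le (X : MMSpace) (x : X.carrier) : hh X x ≤ 1 := by
  have h1 : hh X x ≤ ∫ _, (1 : ℝ) ∂X.μ :=
    integral_mono (integrable_kk X.μ X id measurable_id x) (integrable_const _) fun _ => kk_le _ _
  simpa using h1

theorem measurable_hh (X : MMSpace) : Measurable (hh X) := by
  have h1 : StronglyMeasurable (Function.uncurry fun x y : X.carrier => kk x y) :=
    (measurable_kk X).stronglyMeasurable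
  exact (h1.integral_prod_right (ν := X.μ)).measurable

omit [IsProbabilityMeasure P] in
theorem hh_eq (X : MMSpace) (φ : Ω → X.carrier) (hφ : Measurable φ) (hP : Measure.map φ P = X.μ)
    (x : X.carrier) : hh X x = ∫ t, kk x (φ t) ∂P := by
  rw [hh, ← hP]
  refine integral_map hφ.aemeasurable ?_
  exact ((measurable_kk X).comp measurable_prodMk_left).aestronglyMeasurable

omit [IsProbabilityMeasure P] in
theorem J_eq (X : MMSpace) (φ : Ω → X.carrier) (hφ : Measurable φ) (hP : Measure.map φ P = X.μ)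
    (M : ℕ) : J M X = ∫ t, (hh X (φ t)) ^ M ∂P := by
  have h1 := integral_map (μ := P) hφ.aemeasurable (f := fun x => (hh X x) ^ M)
    (((measurable_hh X).pow_const M).aestronglyMeasurable)
  rw [hP] at h1
  exact h1

theorem pow_sub_pow_le {a b : ℝ} (ha : 0 ≤ a) (ha1 : a ≤ 1) (hb : 0 ≤ b) (hb1 : b ≤ 1) (M : ℕ) :
    |a ^ M - b ^ M| ≤ M * |a - b| := by
  induction M with
  | zero => simp
  | succ M ih =>
    have h1 : a ^ (M + 1) - b ^ (M + 1) = a * (a ^ M - b ^ M) + (a - b) * b ^ M := by ring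
    rw [h1]
    refine (abs_add_le _ _).trans ?_
    rw [abs_mul, abs_mul, abs_of_nonneg ha, abs_of_nonneg (pow_nonneg hb M)]
    have h2 : a * |a ^ M - b ^ M| ≤ 1 * |a ^ M - b ^ M| :=
      mul_le_mul_of_nonneg_right ha1 (abs_nonneg _)
    have h3 : |a - b| * b ^ M ≤ |a - b| * 1 :=
      mul_le_mul_of_nonneg_left (pow_le_one₀ hb hb1) (abs_nonneg _)
    push_cast
    nlinarith

theorem J_close (X Y : MMSpace) (φ : Ω → X.carrier) (ψ : Ω → Y.carrier) (hφ : Measurable φ)
    (hψ : Measurable ψ) (hX : Measure.map φ P = X.μ) (hY : Measure.map ψ P = Y.μ)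
    {S : Set Ω} (hS : MeasurableSet S) {ε : ℝ≥0} (hε : P Sᶜ ≤ ε)
    (hd : ∀ s ∈ S, ∀ t ∈ S, |dist (φ s) (φ t) - dist (ψ s) (ψ t)| ≤ ε) (M : ℕ) :
    |J M X - J M Y| ≤ (2 * M + 1) * ε := by
  have hε' : P.real Sᶜ ≤ ε := by
    rw [measureReal_def]
    exact ENNReal.toReal_le_coe_of_le_coe hε
  have hind : Integrable (Sᶜ.indicator fun _ => (1 : ℝ)) P :=
    (integrable_const _).indicator hS.compl
  have hindint : ∫ t, Sᶜ.indicator (fun _ => (1 : ℝ)) t ∂P = P.real Sᶜ := by
    rw [integral_indicator hS.compl]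
    simp
  -- the inner functions
  have h1 : ∀ s ∈ S, |hh X (φ s) - hh Y (ψ s)| ≤ 2 * ε := by
    intro s hs
    rw [hh_eq P X φ hφ hX, hh_eq P Y ψ hψ hY, ← integral_sub (integrable_kk P X φ hφ _)
      (integrable_kk P Y ψ hψ _)]
    refine (abs_integral_le_integral_abs).trans ?_
    have h2 : ∫ t, |kk (φ s) (φ t) - kk (ψ s) (ψ t)| ∂P ≤
        ∫ t, ((ε : ℝ) + Sᶜ.indicator (fun _ => (1 : ℝ)) t) ∂P := by
      refine integral_mono ((integrable_kk P X φ hφ _).sub (integrable_kk P Y ψ hψ _)).abs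
        ((integrable_const _).add hind) fun t => ?_
      simp only
      by_cases ht : t ∈ S
      · rw [indicator_of_notMem (by simpa using ht), add_zero]
        refine le_trans ?_ (hd s hs t ht)
        simp only [kk]
        exact abs_min_sub_min_le_max _ _ _ _ |>.trans (by simp)
      · rw [indicator_of_mem (by simpa using ht)]
        have h3 := kk_nonneg (φ s) (φ t)
        have h4 := kk_nonneg (ψ s) (ψ t)
        have h5 := kk_le (φ s) (φ t)
        have h6 := kk_le (ψ s) (ψ t)
        have h7 : (0 : ℝ) ≤ ε := ε.2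
        rw [abs_le]
        constructor <;> linarith
    refine h2.trans ?_
    rw [integral_add (integrable_const _) hind, hindint]
    simp only [integral_const, probReal_univ, smul_eq_mul, one_mul]
    linarith
  rw [J_eq P X φ hφ hX, J_eq P Y ψ hψ hY]
  have hI1 : Integrable (fun t => (hh X (φ t)) ^ M) P := by
    refine Integrable.of_bound (C := 1) ?_ (Eventually.of_forall fun t => ?_)
    · exact (((measurable_hh X).comp hφ).pow_const M).aestronglyMeasurable
    · rw [Real.norm_of_nonneg (pow_nonneg (hh_nonneg _ _) _)]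
      exact pow_le_one₀ (hh_nonneg _ _) (hh_le _ _)
  have hI2 : Integrable (fun t => (hh Y (ψ t)) ^ M) P := by
    refine Integrable.of_bound (C := 1) ?_ (Eventually.of_forall fun t => ?_)
    · exact (((measurable_hh Y).comp hψ).pow_const M).aestronglyMeasurable
    · rw [Real.norm_of_nonneg (pow_nonneg (hh_nonneg _ _) _)]
      exact pow_le_one₀ (hh_nonneg _ _) (hh_le _ _)
  rw [← integral_sub hI1 hI2]
  refine (abs_integral_le_integral_abs).trans ?_
  have h2 : ∫ t, |hh X (φ t) ^ M - hh Y (ψ t) ^ M| ∂P ≤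
      ∫ t, ((2 * M * ε : ℝ) + Sᶜ.indicator (fun _ => (1 : ℝ)) t) ∂P := by
    refine integral_mono (hI1.sub hI2).abs ((integrable_const _).add hind) fun t => ?_
    simp only
    by_cases ht : t ∈ S
    · rw [indicator_of_notMem (by simpa using ht), add_zero]
      refine (pow_sub_pow_le (hh_nonneg _ _) (hh_le _ _) (hh_nonneg _ _) (hh_le _ _) M).trans ?_
      have h3 := mul_le_mul_of_nonneg_left (h1 t ht) (Nat.cast_nonneg M (α := ℝ))
      linarith
    · rw [indicator_of_mem (by simpa using ht)]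
      have h3 := pow_nonneg (hh_nonneg X (φ t)) M
      have h4 := pow_nonneg (hh_nonneg Y (ψ t)) M
      have h5 := pow_le_one₀ (n := M) (hh_nonneg X (φ t)) (hh_le _ _)
      have h6 := pow_le_one₀ (n := M) (hh_nonneg Y (ψ t)) (hh_le _ _)
      have h7 : (0 : ℝ) ≤ 2 * M * ε := by positivity
      rw [abs_le]
      constructor <;> linarith
  refine h2.trans ?_
  rw [integral_add (integrable_const _) hind, hindint]
  simp only [integral_const, probReal_univ, smul_eq_mul, one_mul]
  linarith

end functional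

theorem J_iso {X Y : MMSpace} (h : Iso X Y) (M : ℕ) : J M X = J M Y := by
  obtain ⟨f, hf, hfm⟩ := h
  have : SecondCountableTopology X.carrier := UniformSpace.secondCountable_of_separable _
  have : SecondCountableTopology Y.carrier := UniformSpace.secondCountable_of_separable _
  have hXs : MeasurableSet X.μ.support := Measure.isClosed_support.measurableSet
  have hYs : MeasurableSet Y.μ.support := Measure.isClosed_support.measurableSet
  have h1 : Measure.map (Subtype.val : X.μ.support → X.carrier) (X.μ.comap Subtype.val) = X.μ := by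
    rw [(MeasurableEmbedding.subtype_coe hXs).map_comap, Subtype.range_coe]
    exact Measure.restrict_eq_self_of_ae_mem Measure.support_mem_ae
  have h2 : Measure.map (Subtype.val : Y.μ.support → Y.carrier) (Y.μ.comap Subtype.val) = Y.μ := by
    rw [(MeasurableEmbedding.subtype_coe hYs).map_comap, Subtype.range_coe]
    exact Measure.restrict_eq_self_of_ae_mem Measure.support_mem_ae
  have hprob : IsProbabilityMeasure (X.μ.comap (Subtype.val : X.μ.support → X.carrier)) := by
    constructor
    have h3 := congrArg (fun m => m univ) h1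
    simp only [measure_univ] at h3
    rwa [Measure.map_apply measurable_subtype_coe MeasurableSet.univ, preimage_univ] at h3
  have h3 := J_close (X.μ.comap (Subtype.val : X.μ.support → X.carrier)) X Y Subtype.val
    (fun s => (f s : Y.carrier)) measurable_subtype_coe
    (measurable_subtype_coe.comp hf.continuous.measurable) h1 (by
      rw [← hfm, Measure.map_map measurable_subtype_coe hf.continuous.measurable] at h2
      exact h2)
    (S := univ) MeasurableSet.univ (ε := 0) (by simp) (fun s _ t _ => by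
      rw [← Subtype.dist_eq, ← Subtype.dist_eq, hf.dist_eq]; simp) M
  simpa [sub_eq_zero] using h3

/-- The functional on classes. -/
noncomputable def JJ (M : ℕ) : MM → ℝ := Quot.lift (J M) fun _ _ h => J_iso h M

theorem JJ_mk (M : ℕ) (X : MMSpace) : JJ M (Quot.mk Iso X) = J M X := rfl


theorem leb_univ : leb univ = 1 := by
  rw [leb, Measure.comap_apply _ Subtype.val_injective (fun s hs =>
    (MeasurableEmbedding.subtype_coe measurableSet_Ico).measurableSet_image.2 hs) _
    MeasurableSet.univ, image_univ, Subtype.range_coe]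
  simp

instance : IsProbabilityMeasure leb := ⟨leb_univ⟩

theorem leb_apply {s : Set ℝ} (hs : MeasurableSet s) :
    leb (Subtype.val ⁻¹' s) = volume (s ∩ Ico 0 1) := by
  rw [leb, Measure.comap_apply _ Subtype.val_injective (fun s hs =>
    (MeasurableEmbedding.subtype_coe measurableSet_Ico).measurableSet_image.2 hs) _
    (measurable_subtype_coe hs)]
  simp [inter_comm]

theorem JJ_close {z z' : MM} {ε : ℝ≥0} (h : box z z' < ε) (M : ℕ) :
    |JJ M z - JJ M z'| ≤ (2 * M + 1) * ε := by
  simp only [box, iInf_lt_iff] at h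
  obtain ⟨δ, ⟨X, Y, rfl, rfl, φ, ψ, hφ, hψ, hX, hY, S, hS, hδ, hd⟩, hδε⟩ := h
  rw [JJ_mk, JJ_mk]
  have h1 : leb Sᶜ ≤ δ := by
    rw [prob_compl_eq_one_sub hS]
    exact tsub_le_iff_tsub_le.1 hδ
  refine (J_close leb X Y φ ψ hφ hψ hX hY hS h1 hd M).trans ?_
  have h2 : (δ : ℝ) ≤ ε := by exact_mod_cast hδε.le
  exact mul_le_mul_of_nonneg_left h2 (by positivity)

theorem exists_small (c : ℝ) (hc : 0 < c) (M : ℕ) : ∃ ε : ℝ≥0, 0 < ε ∧ (2 * M + 1) * (ε : ℝ) < c := by
  refine ⟨Real.toNNReal (c / (2 * M + 1) / 2), ?_, ?_⟩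
  · rw [Real.toNNReal_pos]
    positivity
  · rw [Real.coe_toNNReal _ (by positivity)]
    field_simp
    norm_num

theorem closed_ge (M : ℕ) (c : ℝ) : IsBoxClosed {z | c ≤ JJ M z} := by
  intro z hz
  rw [mem_ofPred_eq]
  by_contra hcon
  push Not at hcon
  obtain ⟨ε, hε, hε'⟩ := exists_small (c - JJ M z) (by linarith) M
  obtain ⟨y, hy, hy'⟩ := hz ε (by exact_mod_cast hε)
  have h1 := abs_le.1 (JJ_close hy' M)
  have h2 : c ≤ JJ M y := hy
  linarith

theorem closed_le (M : ℕ) (c : ℝ) : IsBoxClosed {z | JJ M z ≤ c} := by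
  intro z hz
  rw [mem_ofPred_eq]
  by_contra hcon
  push Not at hcon
  obtain ⟨ε, hε, hε'⟩ := exists_small (JJ M z - c) (by linarith) M
  obtain ⟨y, hy, hy'⟩ := hz ε (by exact_mod_cast hε)
  have h1 := abs_le.1 (JJ_close hy' M)
  have h2 : JJ M y ≤ c := hy
  linarith

/-- The closure of a set. -/
def clos (S : Set MM) : F :=
  ⟨{z | ∀ C, IsBoxClosed C → S ⊆ C → z ∈ C}, fun z hz C hC hSC => hC z fun ε hε => by
    obtain ⟨y, hy, hy'⟩ := hz ε hε
    exact ⟨y, hy C hC hSC, hy'⟩⟩

theorem subset_clos (S : Set MM) : S ⊆ (clos S).1 := fun _ hz _ _ h => h hz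

theorem clos_subset {S C : Set MM} (hC : IsBoxClosed C) (h : S ⊆ C) : (clos S).1 ⊆ C :=
  fun _ hz => hz C hC h

theorem nonneg_J (M : ℕ) (X : MMSpace) : 0 ≤ J M X :=
  integral_nonneg fun _ => pow_nonneg (hh_nonneg _ _) _

theorem hh_lt_one (X : MMSpace) : ∀ᵐ x ∂X.μ, hh X x < 1 := by
  have : SecondCountableTopology X.carrier := UniformSpace.secondCountable_of_separable _
  filter_upwards [Measure.support_mem_ae (μ := X.μ)] with x hx
  by_contra hcon
  push Not at hcon
  have h1 : hh X x = 1 := le_antisymm (hh_le _ _) hcon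
  have h2 : ∫ y, (1 - kk x y) ∂X.μ = 0 := by
    rw [integral_sub (integrable_const _) (integrable_kk X.μ X (fun y => y) measurable_id x)]
    simp only [integral_const, probReal_univ, smul_eq_mul, one_mul]
    rw [hh] at h1
    rw [h1, sub_self]
  rw [integral_eq_zero_iff_of_nonneg (fun y => sub_nonneg.2 (kk_le x y))
    ((integrable_const _).sub (integrable_kk X.μ X id measurable_id x))] at h2
  have h3 : X.μ (Metric.ball x 1) = 0 := by
    refine measure_mono_null ?_ h2
    intro y hy h4
    have h4' : 1 - min 1 (dist x y) = 0 := h4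
    rw [Metric.mem_ball, dist_comm] at hy
    have : min 1 (dist x y) = dist x y := min_eq_right hy.le
    rw [this] at h4'
    linarith
  have h4 := (Measure.mem_support_iff_forall x).1 hx _ (Metric.ball_mem_nhds x one_pos)
  exact absurd h3 h4.ne'

theorem tendsto_J (X : MMSpace) : Tendsto (fun M => J M X) atTop (𝓝 0) := by
  have h1 : Tendsto (fun M => ∫ x, (hh X x) ^ M ∂X.μ) atTop (𝓝 (∫ _, (0 : ℝ) ∂X.μ)) := by
    refine tendsto_integral_of_dominated_convergence (fun _ => 1)
      (fun M => ((measurable_hh X).pow_const M).aestronglyMeasurable) (integrable_const _)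
      (fun M => Eventually.of_forall fun x => ?_) ?_
    · rw [Real.norm_of_nonneg (pow_nonneg (hh_nonneg _ _) _)]
      exact pow_le_one₀ (hh_nonneg _ _) (hh_le _ _)
    · filter_upwards [hh_lt_one X] with x hx
      exact tendsto_pow_atTop_nhds_zero_of_lt_one (hh_nonneg _ _) hx
  simpa [J] using h1

/-! ### The spaces -/

/-- The parameter of the spreading spaces. -/
noncomputable def par (δ K : ℝ) (t : Ico (0 : ℝ) 1) : ℝ := K * max 0 (t.1 - (1 - δ))

theorem measurable_par (δ K : ℝ) : Measurable (par δ K) := by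
  unfold par
  fun_prop

noncomputable def XX (δ K : ℝ) : MMSpace where
  carrier := ℝ
  μ := Measure.map (par δ K) leb
  prob := Measure.isProbabilityMeasure_map (measurable_par δ K).aemeasurable

theorem hh_XX {δ K : ℝ} (hK : 0 < K) (x : ℝ) (hx : 1 ≤ x) :
    1 - 2 / K ≤ hh (XX δ K) x := by
  rw [hh_eq leb (XX δ K) (par δ K) (measurable_par δ K) rfl x]
  let s : Set ℝ := Ioo ((1 - δ) + (x - 1) / K) ((1 - δ) + (x + 1) / K)
  have hs : MeasurableSet s := measurableSet_Ioo
  let S : Set (Ico (0 : ℝ) 1) := Subtype.val ⁻¹' s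
  have hS : MeasurableSet S := measurable_subtype_coe hs
  have h1 : leb S ≤ ENNReal.ofReal (2 / K) := by
    rw [leb_apply hs]
    refine (measure_mono inter_subset_left).trans ?_
    rw [Real.volume_Ioo]
    refine ENNReal.ofReal_le_ofReal ?_
    field_simp
    norm_num
  have h2 : leb.real S ≤ 2 / K := by
    rw [measureReal_def]
    exact ENNReal.toReal_le_of_le_ofReal (by positivity) h1
  have h3 : ∫ t, (1 - S.indicator (fun _ => (1 : ℝ)) t) ∂leb ≤ ∫ t, kk (X := ℝ) x (par δ K t) ∂leb := by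
    refine integral_mono ((integrable_const _).sub ((integrable_const _).indicator hS))
      (integrable_kk leb (XX δ K) (par δ K) (measurable_par δ K) x) fun t => ?_
    simp only
    by_cases ht : t ∈ S
    · rw [indicator_of_mem ht, sub_self]
      exact kk_nonneg _ _
    · rw [indicator_of_notMem ht, sub_zero]
      refine le_min le_rfl ?_
      by_contra hcon
      push Not at hcon
      apply ht
      rw [Real.dist_eq, abs_lt] at hcon
      have h4 : 0 < par δ K t := by linarith [hcon.2]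
      have h5 : par δ K t = K * (t.1 - (1 - δ)) := by
        unfold par at h4 ⊢
        rw [max_eq_right]
        by_contra hneg
        push Not at hneg
        rw [max_eq_left hneg.le, mul_zero] at h4
        exact lt_irrefl _ h4
      rw [h5] at hcon
      change t.1 ∈ Ioo _ _
      constructor
      · have : (x - 1) / K < t.1 - (1 - δ) := by
          rw [div_lt_iff₀ hK]
          linarith [hcon.2]
        linarith
      · have : t.1 - (1 - δ) < (x + 1) / K := by
          rw [lt_div_iff₀ hK]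
          linarith [hcon.1]
        linarith
  refine le_trans ?_ h3
  rw [integral_sub (integrable_const _) ((integrable_const _).indicator hS),
    integral_indicator hS]
  simp only [integral_const, probReal_univ, smul_eq_mul, mul_one, measureReal_restrict_apply_univ]
  linarith

theorem J_XX {δ K : ℝ} (hδ1 : δ ≤ 1) (hK : 2 ≤ K) (M : ℕ) :
    (δ - 1 / K) * (1 - 2 / K) ^ M ≤ J M (XX δ K) := by
  have hK0 : 0 < K := by linarith
  rw [J_eq leb (XX δ K) (par δ K) (measurable_par δ K) rfl M]
  let s : Set ℝ := Ici ((1 - δ) + 1 / K)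
  have hs : MeasurableSet s := measurableSet_Ici
  let S : Set (Ico (0 : ℝ) 1) := Subtype.val ⁻¹' s
  have hS : MeasurableSet S := measurable_subtype_coe hs
  have h0 : (0 : ℝ) ≤ 1 - 2 / K := by
    rw [sub_nonneg, div_le_one hK0]
    exact hK
  have h1 : δ - 1 / K ≤ leb.real S := by
    rw [measureReal_def, leb_apply hs]
    have h2 : Ico ((1 - δ) + 1 / K) 1 ⊆ s ∩ Ico 0 1 := by
      intro y hy
      refine ⟨hy.1, ?_, hy.2⟩
      have : 0 < 1 / K := by positivity
      linarith [hy.1]
    have h3 := measure_mono (μ := (volume : Measure ℝ)) h2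
    rw [Real.volume_Ico] at h3
    have h4 : volume (s ∩ Ico (0 : ℝ) 1) ≠ ⊤ := by
      refine ne_top_of_le_ne_top ?_ (measure_mono inter_subset_right)
      simp
    rw [← ENNReal.ofReal_le_iff_le_toReal h4]
    refine le_trans (ENNReal.ofReal_le_ofReal ?_) h3
    linarith
  have h2 : ∫ t, S.indicator (fun _ => (1 - 2 / K) ^ M) t ∂leb ≤
      ∫ t, (hh (XX δ K) (par δ K t)) ^ M ∂leb := by
    refine integral_mono ((integrable_const _).indicator hS) ?_ fun t => ?_
    · refine Integrable.of_bound (C := 1) ?_ (Eventually.of_forall fun t => ?_)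
      · exact (((measurable_hh (XX δ K)).comp (measurable_par δ K)).pow_const M).aestronglyMeasurable
      · exact (Real.norm_of_nonneg (pow_nonneg (hh_nonneg (XX δ K) (par δ K t)) M)).le.trans
          (pow_le_one₀ (hh_nonneg _ _) (hh_le _ _))
    · simp only
      by_cases ht : t ∈ S
      · rw [indicator_of_mem ht]
        refine pow_le_pow_left₀ h0 (hh_XX hK0 _ ?_) M
        have h3 : (1 - δ) + 1 / K ≤ t.1 := ht
        have h4 : 1 / K ≤ max 0 (t.1 - (1 - δ)) := le_max_of_le_right (by linarith)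
        have h5 := mul_le_mul_of_nonneg_left h4 hK0.le
        rw [mul_one_div_cancel hK0.ne'] at h5
        exact h5
      · rw [indicator_of_notMem ht]
        exact pow_nonneg (hh_nonneg _ _) _
  refine le_trans ?_ h2
  rw [integral_indicator hS]
  simp only [integral_const, smul_eq_mul, measureReal_restrict_apply_univ]
  exact mul_le_mul_of_nonneg_right h1 (pow_nonneg h0 M)

theorem exists_dirac {X : MMSpace} (h : J 1 X ≤ 0) : ∃ x₀, X.μ = Measure.dirac x₀ := by
  have h0 : J 1 X = 0 := le_antisymm h (nonneg_J 1 X)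
  simp only [J, pow_one] at h0
  have hint : Integrable (fun x => hh X x) X.μ := by
    refine Integrable.of_bound (C := 1) (measurable_hh X).aestronglyMeasurable
      (Eventually.of_forall fun t => ?_)
    rw [Real.norm_of_nonneg (hh_nonneg _ _)]
    exact hh_le _ _
  rw [integral_eq_zero_iff_of_nonneg (fun x => hh_nonneg X x) hint] at h0
  obtain ⟨x₀, hx₀⟩ := h0.exists
  have hx₀' : ∫ y, kk x₀ y ∂X.μ = 0 := hx₀
  rw [integral_eq_zero_iff_of_nonneg (fun x => kk_nonneg _ _)
    (integrable_kk X.μ X (fun y => y) measurable_id x₀)] at hx₀'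
  have h1 : ∀ᵐ y ∂X.μ, y = x₀ := by
    filter_upwards [hx₀'] with y hy
    have h2 : min 1 (dist x₀ y) = 0 := hy
    have h3 : dist x₀ y = 0 := by
      rcases min_choice 1 (dist x₀ y) with h4 | h4
      · rw [h4] at h2
        exact absurd h2 one_ne_zero
      · rwa [h4] at h2
    exact (dist_eq_zero.1 h3).symm
  refine ⟨x₀, ?_⟩
  ext s hs
  rw [Measure.dirac_apply' _ hs]
  by_cases hx : x₀ ∈ s
  · rw [indicator_of_mem hx, Pi.one_apply]
    rw [prob_compl_eq_zero_iff hs |>.symm]
    refine measure_mono_null ?_ h1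
    intro y hy hy'
    exact hy (hy' ▸ hx)
  · rw [indicator_of_notMem hx]
    refine measure_mono_null ?_ h1
    intro y hy hy'
    exact hx (hy' ▸ hy)

theorem box_le {z : MM} (hz : JJ 1 z ≤ 0) {δ K : ℝ} (hδ : 0 < δ) :
    box z (Quot.mk Iso (XX δ K)) ≤ (Real.toNNReal δ : ℝ≥0∞) := by
  induction z using Quot.ind with
  | mk X =>
  obtain ⟨x₀, hx₀⟩ := exists_dirac (X := X) hz
  refine iInf₂_le _ ?_
  refine ⟨X, XX δ K, rfl, rfl, fun _ => x₀, par δ K, measurable_const, measurable_par δ K, ?_, rfl,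
    Subtype.val ⁻¹' (Iic (1 - δ)), measurable_subtype_coe measurableSet_Iic, ?_, ?_⟩
  · rw [Measure.map_const, leb_univ, one_smul, hx₀]
  · rw [leb_apply measurableSet_Iic]
    have h1 : Ico 0 (1 - δ) ⊆ Iic (1 - δ) ∩ Ico 0 1 := fun y hy =>
      ⟨hy.2.le, hy.1, hy.2.trans_le (by linarith)⟩
    refine le_trans ?_ (measure_mono h1)
    rw [Real.volume_Ico, sub_zero]
    rw [ENNReal.ofReal_sub _ hδ.le, ENNReal.ofReal_one]
    rfl
  · intro s hs t ht
    have h1 : ∀ u : Ico (0 : ℝ) 1, u ∈ (Subtype.val ⁻¹' (Iic (1 - δ)) : Set (Ico (0 : ℝ) 1)) →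
        par δ K u = 0 := by
      intro u hu
      have h2 : u.1 ≤ 1 - δ := hu
      unfold par
      rw [max_eq_left (by linarith), mul_zero]
    have h2 : dist (par δ K s) (par δ K t) = 0 := by rw [h1 s hs, h1 t ht, dist_self]
    have h3 : |dist x₀ x₀ - dist (par δ K s) (par δ K t)| ≤ (Real.toNNReal δ : ℝ) := by
      rw [dist_self, h2, sub_self, abs_zero]
      exact NNReal.coe_nonneg _
    exact h3

/-- The one-point space. -/
noncomputable def pt : MMSpace where
  carrier := Unit
  μ := Measure.dirac ()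

theorem JJ_pt : JJ 1 (Quot.mk Iso pt) ≤ 0 := by
  rw [JJ_mk, J]
  refine (integral_eq_zero_of_ae (Eventually.of_forall fun x => ?_)).le
  have h1 : hh pt x = 0 := by
    refine integral_eq_zero_of_ae (Eventually.of_forall fun y => ?_)
    have h2 : dist x y = 0 := by
      rw [dist_eq_zero]
      exact Subsingleton.elim (α := Unit) x y
    simp [kk, h2]
  simp [h1]

theorem JJ_XX_le {δ K : ℝ} (hδ : 0 < δ) :
    JJ 1 (Quot.mk Iso (XX δ K)) ≤ 6 * δ := by
  have h1 := box_le JJ_pt hδ (K := K)
  have h2 : box (Quot.mk Iso pt) (Quot.mk Iso (XX δ K)) < (Real.toNNReal (2 * δ) : ℝ≥0∞) := by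
    refine lt_of_le_of_lt h1 ?_
    rw [ENNReal.coe_lt_coe, Real.toNNReal_lt_toNNReal_iff (by linarith)]
    linarith
  have h3 := abs_le.1 (JJ_close h2 1)
  rw [Real.coe_toNNReal _ (by linarith)] at h3
  have h4 := JJ_pt
  push_cast at h3
  linarith [h3.1]

/-! ### The nets -/

theorem tendsto_seq {A : ℕ → F} {B : F} (h : KPConverges (fun i : ULift.{1} ℕ => A i.down) B) :
    Tendsto A atTop (@nhds F tauK B) := by
  have h1 := tauK_admissible (ULift.{1} ℕ) _ B h
  exact h1.comp (ULift.orderIso.{1, 0} (α := ℕ)).symm.tendsto_atTop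

/-- The closed sets used. -/
noncomputable def AA (δ : ℝ) (K : ℕ) : F := clos {Quot.mk Iso (XX δ K)}

/-- The empty closed set. -/
def Emp : F := ⟨∅, fun z hz => by
  obtain ⟨y, hy, _⟩ := hz 1 one_pos
  exact hy⟩

/-- The class of the one-point space. -/
noncomputable def Pt : F := ⟨{z | JJ 1 z ≤ 0}, closed_le 1 0⟩

theorem limit_one {δ : ℝ} (hδ : 0 < δ) (hδ1 : δ ≤ 1) :
    KPConverges (fun i : ULift.{1} ℕ => AA δ i.down) Emp := by
  refine ⟨fun z hz => ?_, fun z hz => hz.elim⟩
  exfalso
  obtain ⟨M, hM⟩ : ∃ M, JJ M z < δ / 4 := by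
    induction z using Quot.ind with
    | mk X =>
    exact (((tendsto_J X).eventually_lt_const (by positivity : (0 : ℝ) < δ / 4))).exists
  have h1 : Tendsto (fun K : ℕ => (δ - 1 / (K : ℝ)) * (1 - 2 / (K : ℝ)) ^ M) atTop
      (𝓝 ((δ - 0) * (1 - 0) ^ M)) := by
    refine Tendsto.mul (tendsto_const_nhds.sub tendsto_one_div_atTop_nhds_zero_nat) ?_
    exact (tendsto_const_nhds.sub (tendsto_const_div_atTop_nhds_zero_nat 2)).pow M
  simp only [sub_zero, one_pow, mul_one] at h1
  obtain ⟨K₀, hK₀⟩ := eventually_atTop.1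
    ((h1.eventually_const_lt (by linarith : δ / 2 < δ)).and (eventually_ge_atTop 2))
  obtain ⟨ε, hε, hε'⟩ := exists_small (δ / 4) (by positivity) M
  obtain ⟨⟨j⟩, hj, y, hy, hzy⟩ := hz ε (by exact_mod_cast hε) ⟨K₀⟩
  have hj' : K₀ ≤ j := hj
  obtain ⟨h2, h3⟩ := hK₀ j hj'
  have h4 : δ / 2 ≤ JJ M y := by
    refine clos_subset (closed_ge M (δ / 2)) ?_ hy
    rintro _ rfl
    exact h2.le.trans (J_XX hδ1 (by exact_mod_cast h3) M)
  have h5 := abs_le.1 (JJ_close hzy M)
  linarith [h5.1]

theorem limit_two (K : ℕ → ℕ) :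
    KPConverges (fun i : ULift.{1} ℕ => AA (1 / ((i.down : ℝ) + 1)) (K i.down)) Pt := by
  have hpos : ∀ n : ℕ, (0 : ℝ) < 1 / ((n : ℝ) + 1) := fun n => by positivity
  refine ⟨fun z hz => ?_, fun z hz => ?_⟩
  · change JJ 1 z ≤ 0
    by_contra hcon
    push Not at hcon
    obtain ⟨ε, hε, hε'⟩ := exists_small (JJ 1 z / 2) (by positivity) 1
    obtain ⟨i, hi⟩ := exists_nat_one_div_lt (by positivity : (0 : ℝ) < JJ 1 z / 12)
    obtain ⟨⟨j⟩, hj, y, hy, hzy⟩ := hz ε (by exact_mod_cast hε) ⟨i⟩
    have hj' : i ≤ j := hj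
    have h4 : JJ 1 y ≤ 6 * (1 / ((j : ℝ) + 1)) := by
      refine clos_subset (closed_le 1 _) ?_ hy
      rintro _ rfl
      exact JJ_XX_le (hpos j)
    have h5 : 1 / ((j : ℝ) + 1) ≤ 1 / ((i : ℝ) + 1) := by
      refine one_div_le_one_div_of_le (by positivity) ?_
      have : (i : ℝ) ≤ j := by exact_mod_cast hj'
      linarith
    have h6 := abs_le.1 (JJ_close hzy 1)
    rw [Nat.cast_one] at h6 hε'
    linarith [h6.2]
  · intro ε hε
    have h1 : Tendsto (fun n : ℕ => (Real.toNNReal (1 / ((n : ℝ) + 1)) : ℝ≥0∞)) atTop (𝓝 0) := by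
      have h2 := (ENNReal.continuous_ofReal.tendsto 0).comp
        (tendsto_one_div_add_atTop_nhds_zero_nat (𝕜 := ℝ))
      rw [ENNReal.ofReal_zero] at h2
      exact h2
    obtain ⟨i, hi⟩ := eventually_atTop.1 (h1.eventually_lt_const hε)
    refine ⟨⟨i⟩, fun j hj => ?_⟩
    refine ⟨Quot.mk Iso (XX (1 / ((j.down : ℝ) + 1)) (K j.down)), subset_clos _ rfl, ?_⟩
    exact (box_le hz (hpos j.down)).trans_lt (hi j.down hj)

theorem tend_one {δ : ℝ} (hδ : 0 < δ) (hδ1 : δ ≤ 1) :
    Tendsto (AA δ) atTop (@nhds F tauK Emp) :=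
  tendsto_seq (A := AA δ) (B := Emp) (limit_one hδ hδ1)

theorem tend_two (K : ℕ → ℕ) :
    Tendsto (fun n : ℕ => AA (1 / ((n : ℝ) + 1)) (K n)) atTop (@nhds F tauK Pt) :=
  tendsto_seq (A := fun n : ℕ => AA (1 / ((n : ℝ) + 1)) (K n)) (B := Pt) (limit_two K)

theorem not_t2 : ¬ @T2Space F tauK := by
  intro h
  have hne : Emp ≠ Pt := by
    intro h
    have h1 : Quot.mk Iso pt ∈ Pt.1 := JJ_pt
    rw [← h] at h1
    exact h1
  obtain ⟨U, V, hU, hV, hEU, hPV, hUV⟩ := @T2Space.t2 F tauK h Emp Pt hne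
  have hU' : U ∈ @nhds F tauK Emp := @IsOpen.mem_nhds F tauK Emp U hU hEU
  have hV' : V ∈ @nhds F tauK Pt := @IsOpen.mem_nhds F tauK Pt V hV hPV
  have h1 : ∀ n : ℕ, ∃ K : ℕ, AA (1 / ((n : ℝ) + 1)) K ∈ U := by
    intro n
    have hp : (0 : ℝ) < 1 / ((n : ℝ) + 1) := by positivity
    have hp1 : 1 / ((n : ℝ) + 1) ≤ 1 := by
      rw [div_le_one (by positivity)]
      linarith [(n.cast_nonneg : (0 : ℝ) ≤ n)]
    exact ((tend_one hp hp1).eventually hU').exists
  choose K hK using h1
  obtain ⟨n, hn⟩ := ((tend_two K).eventually hV').exists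
  exact (Set.disjoint_left.1 hUV) (hK n) hn

/-- The topologization `tauK` of Kuratowski–Painlevé convergence on the closed subsets of the
space of mm-spaces with the box metric is not Hausdorff, and hence not metrizable. -/
theorem result : ¬ @T2Space F tauK ∧ ¬ @TopologicalSpace.MetrizableSpace F tauK := by
  refine ⟨not_t2, fun h => not_t2 ?_⟩
  let := tauK
  exact TopologicalSpace.t2Space_of_metrizableSpace

end Pool.Agent.Results.MP_3b4475_gt.NotHausdorff
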